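import Mathlib

set_option autoImplicit false

namespace Pool.Agent.H.MP_e3b298_an
open Finset

lemma shift (u s t : ℕ → ℝ) (M : ℕ) (z : ℂ) (h0 : u 0 = s 0) (hM : s M = 0)
    (h : ∀ k, u (k + 1) = s (k + 1) + t k) : ∑ k ∈ range (M + 1), (u k : ℂ) * z ^ k =
      ∑ k ∈ range M, (s k : ℂ) * z ^ k + z * ∑ k ∈ range M, (t k : ℂ) * z ^ k := by
  have : ∑ k ∈ range M, (s k : ℂ) * z ^ k = ∑ k ∈ range (M + 1), (s k : ℂ) * z ^ k := by
    rw [sum_range_succ, hM]; simp
  rw [this, sum_range_succ', sum_range_succ', h0, mul_sum, add_right_comm, ← sum_add_distrib]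
  congr 1
  refine sum_congr rfl fun k _ => ?_
  rw [h]; push_cast; ring

noncomputable def f (N : ℝ) (n k : ℕ) : ℝ :=
  n.descFactorial k * (ascPochhammer ℝ k).eval (N - n - 1) /
    ((ascPochhammer ℝ k).eval N * k.factorial)

lemma f0 (N : ℝ) (n : ℕ) : f N n 0 = 1 := by simp [f]
lemma ftop (N : ℝ) (n : ℕ) : f N n (n + 1) = 0 := by simp [f]

lemma desc (n k : ℕ) : (n.descFactorial (k + 1) : ℝ) = n.descFactorial k * (n - k) := by
  rcases le_or_gt k n with h | h
  · rw [Nat.descFactorial_succ]; push_cast [h]; ring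
  · rw [Nat.descFactorial_eq_zero_iff_lt.mpr h, Nat.descFactorial_eq_zero_iff_lt.mpr (by omega)]
    simp

lemma ascl (k : ℕ) (x : ℝ) :
    (ascPochhammer ℝ (k + 1)).eval x = x * (ascPochhammer ℝ k).eval (x + 1) := by
  rw [ascPochhammer_succ_left]; simp

lemma R1 {N : ℝ} (hN : 0 < N) (n k : ℕ) :
    f N n (k + 1) = f N n k * ((n - k) * (N - n - 1 + k) / ((N + k) * (k + 1))) := by
  have := (ascPochhammer_pos k N hN).ne'
  unfold f
  rw [desc, ascPochhammer_succ_eval, ascPochhammer_succ_eval, Nat.factorial_succ]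
  push_cast
  field_simp

lemma R2 {N : ℝ} (hN : 0 < N) (n k : ℕ) :
    f N (n + 1) (k + 1) = f N n k * ((n + 1) * (N - n - 2) / ((N + k) * (k + 1))) := by
  have := (ascPochhammer_pos k N hN).ne'
  unfold f
  rw [Nat.succ_descFactorial_succ, ascl k (N - (n + 1 : ℕ) - 1), ascPochhammer_succ_eval,
    Nat.factorial_succ, show N - (n + 1 : ℕ) - 1 + 1 = N - n - 1 by push_cast; ring]
  push_cast
  field_simp
  ring

noncomputable def F (N : ℝ) (n : ℕ) (z : ℂ) : ℂ := ∑ k ∈ range (n + 1), (f N n k : ℂ) * z ^ k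
noncomputable def Q (N : ℝ) (n : ℕ) (z : ℂ) : ℂ :=
  ∑ k ∈ range (n + 1), ((f N n k * (N - n - 1 + 2 * k) : ℝ) : ℂ) * z ^ k

lemma J2 {N : ℝ} (hN : 0 < N) (n : ℕ) (z : ℂ) : ((N + n : ℝ) : ℂ) * F N (n + 1) z =
    ((2 * n + 1 : ℝ) : ℂ) * ((1 - z) * F N n z) + (1 + z) * Q N n z := by
  have := shift (fun k => (N + n) * f N (n + 1) k)
    (fun k => (2 * n + 1) * f N n k + f N n k * (N - n - 1 + 2 * k))
    (fun k => -((2 * n + 1) * f N n k) + f N n k * (N - n - 1 + 2 * k)) (n + 1) z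
    (by simp only [f0]; push_cast; ring) (by simp [ftop]) (fun k => by
      rw [R2 hN, R1 hN]
      push_cast
      field_simp
      ring)
  simp only [Complex.ofReal_add _ (f N n _ * _), Complex.ofReal_neg, Complex.ofReal_mul _ (f _ _ _),
    add_mul _ _ (z ^ _), sum_add_distrib, mul_assoc _ _ (z ^ _), neg_mul, sum_neg_distrib,
    ← mul_sum] at this
  unfold F Q
  linear_combination this

lemma J3 {N : ℝ} (hN : 0 < N) (n : ℕ) (z : ℂ) :
    Q N (n + 1) z = ((N - n - 2 : ℝ) : ℂ) * ((1 + z) * F N n z) := by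
  have := shift (fun k => f N (n + 1) k * (N - (n + 1 : ℕ) - 1 + 2 * k))
    (fun k => (N - n - 2) * f N n k) (fun k => (N - n - 2) * f N n k) (n + 1) z
    (by simp only [f0]; push_cast; ring) (by simp [ftop]) (fun k => by
      rw [R2 hN, R1 hN]
      push_cast
      field_simp
      ring)
  simp only [Complex.ofReal_mul _ (f _ _ _), mul_assoc _ _ (z ^ _), ← mul_sum] at this
  unfold F Q
  linear_combination this

lemma step {N : ℝ} (hN : 0 < N) (n : ℕ) {z : ℂ} (hz : ‖z‖ < 1) (h1 : F N n z ≠ 0)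
    (h2 : 0 ≤ (Q N n z * (starRingEnd ℂ) (F N n z)).re) :
    0 < (F N (n + 1) z * (starRingEnd ℂ) ((1 + z) * F N n z)).re := by
  have e : ((N + n : ℝ) : ℂ) * (F N (n + 1) z * (starRingEnd ℂ) ((1 + z) * F N n z)) =
      (((2 * n + 1) * ‖F N n z‖ ^ 2 : ℝ) : ℂ) * ((1 - z) * (starRingEnd ℂ) (1 + z)) +
      ((‖1 + z‖ ^ 2 : ℝ) : ℂ) * (Q N n z * (starRingEnd ℂ) (F N n z)) := by
    rw [← mul_assoc, J2 hN, map_mul]
    push_cast
    rw [← Complex.mul_conj', ← Complex.mul_conj']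
    ring
  have a := congrArg Complex.re e
  rw [Complex.add_re, Complex.re_ofReal_mul, Complex.re_ofReal_mul, Complex.re_ofReal_mul] at a
  have b : ((1 - z) * (starRingEnd ℂ) (1 + z)).re = 1 - ‖z‖ ^ 2 := by
    rw [Complex.sq_norm, Complex.normSq_apply]
    simp
    ring
  have c : 0 < 1 - ‖z‖ ^ 2 := by nlinarith [norm_nonneg z]
  have d := norm_pos_iff.mpr h1
  refine (mul_pos_iff_of_pos_left (show 0 < N + n by positivity)).mp ?_
  rw [a, b]
  positivity

lemma ind {N : ℝ} (hN : 0 < N) {z : ℂ} (hz : ‖z‖ < 1) (n : ℕ) (hn : 0 ≤ N - n - 1) :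
    F N n z ≠ 0 ∧ 0 ≤ (Q N n z * (starRingEnd ℂ) (F N n z)).re := by
  induction n with
  | zero => simpa [F, Q, f0] using hn
  | succ n ih =>
    push_cast at hn
    have := step hN n hz (ih (by linarith)).1 (ih (by linarith)).2
    refine ⟨fun h => by simp [h] at this, ?_⟩
    rw [J3 hN, mul_assoc, Complex.re_ofReal_mul, ← Complex.conj_re, map_mul, Complex.conj_conj,
      mul_comm _ (F N (n + 1) z)]
    exact mul_nonneg (by linarith) this.le

theorem main (n : ℕ) (β : ℝ) (hβ : 1 ≤ β) (x : ℂ) (hx : ‖x‖ = 1) (z : ℂ) (hz : ‖z‖ < 1) :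
    (∑ k ∈ range (n + 1 + 1), ((((n + 1).descFactorial k : ℝ) /
      (ascPochhammer ℝ k).eval (β + ((n + 1 : ℕ) : ℝ)) : ℝ) : ℂ) *
      ((((ascPochhammer ℝ k).eval β / (k.factorial : ℝ)) : ℝ) : ℂ) * z ^ k)
    + x * (∑ k ∈ range (n + 1), ((((n + 1).descFactorial (k + 1) : ℝ) /
      (ascPochhammer ℝ (k + 1)).eval (β + ((n + 1 : ℕ) : ℝ)) : ℝ) : ℂ) *
      ((((ascPochhammer ℝ k).eval β / (k.factorial : ℝ)) : ℝ) : ℂ) * z ^ (k + 1)) ≠ 0 := by
  set N : ℝ := β + ((n + 1 : ℕ) : ℝ) with hNd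
  have hN : 0 < N := by positivity
  have hb : β = N - n - 1 := by rw [hNd]; push_cast; ring
  let a : ℕ → ℝ := fun k => (n + 1).descFactorial k / (ascPochhammer ℝ k).eval N *
    ((ascPochhammer ℝ k).eval β / k.factorial)
  let b : ℕ → ℝ := fun k => (n + 1).descFactorial (k + 1) / (ascPochhammer ℝ (k + 1)).eval N *
    ((ascPochhammer ℝ k).eval β / k.factorial)
  have ha : ∀ k, a (k + 1) = f N n k * ((n + 1) * (N - n - 1 + k) / ((N + k) * (k + 1))) := by
    intro k
    have := (ascPochhammer_pos k N hN).ne'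
    simp only [a, f]
    rw [Nat.succ_descFactorial_succ, ascPochhammer_succ_eval, ascPochhammer_succ_eval,
      Nat.factorial_succ, ← hb]
    push_cast
    field_simp
  have hb' : ∀ k, b k = f N n k * ((n + 1) / (N + k)) := by
    intro k
    have := (ascPochhammer_pos k N hN).ne'
    simp only [b, f]
    rw [Nat.succ_descFactorial_succ, ascPochhammer_succ_eval, ← hb]
    push_cast
    field_simp
  have e1 := shift a (f N n) (fun k => f N n k - b k) (n + 1) z (by simp [a, f0]) (ftop N n)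
    (fun k => by rw [ha, hb', R1 hN]; field_simp; ring)
  have e2 := shift a (f N (n + 1)) b (n + 1 + 1) z (by simp [a, f0]) (ftop N _)
    (fun k => by rw [ha, hb', R2 hN]; field_simp; ring)
  rw [sum_range_succ, sum_range_succ (fun k => (b k : ℂ) * z ^ k)] at e2
  have z1 : a (n + 1 + 1) = 0 := by simp [a]
  have z2 : b (n + 1) = 0 := by simp [b]
  simp only [z1, z2, Complex.ofReal_zero, zero_mul, add_zero] at e2
  simp only [Complex.ofReal_sub, sub_mul, sum_sub_distrib] at e1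
  have := step hN n hz (ind hN hz n (by linarith)).1 (ind hN hz n (by linarith)).2
  simp only [← Complex.ofReal_mul, pow_succ' z, mul_left_comm _ z, ← mul_sum]
  intro h
  change ∑ k ∈ range (n + 1 + 1), (a k : ℂ) * z ^ k +
    z * (x * ∑ k ∈ range (n + 1), (b k : ℂ) * z ^ k) = 0 at h
  rw [mul_left_comm] at h
  set A := ∑ k ∈ range (n + 1 + 1), (a k : ℂ) * z ^ k
  set B := z * ∑ k ∈ range (n + 1), (b k : ℂ) * z ^ k with hB
  have g1 : F N (n + 1) z = A - B := by unfold F; linear_combination -e2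
  have g2 : (1 + z) * F N n z = A + B := by unfold F; linear_combination -e1 - hB
  have g3 : ‖A‖ ^ 2 = ‖B‖ ^ 2 := by
    rw [show A = -(x * B) by linear_combination h, norm_neg, norm_mul, hx, one_mul]
  rw [g1, g2] at this
  rw [Complex.sq_norm, Complex.sq_norm, Complex.normSq_apply, Complex.normSq_apply] at g3
  simp only [Complex.mul_re, Complex.sub_re, Complex.sub_im, Complex.add_re, Complex.add_im,
    Complex.conj_re, Complex.conj_im] at this
  nlinarith

end Pool.Agent.H.MP_e3b298_an
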